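import Mathlib

/-!
# A weakly transitive torsion-free group whose square is not weakly transitive

Let `R` be the ring of all `f ∈ ℚ[X]` with `5`-integral coefficients such that `f(p)` is
`p`-integral for every prime `p ≠ 5`, and let `G` be its additive group.  Every endomorphism of
`G` is multiplication by an element of `R`, so `G` is weakly transitive since `R` is a domain.
In `G ⊕ G`, the elements `(X, 5)` and `(2X, 5)` are mapped to each other by endomorphisms, but
not by an automorphism.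
-/

open Polynomial

namespace Pool.Agent.Results.MP_1abb56_al.SquareNotWeak

/-- `G` is torsion-free. -/
def TorsionFree (G : Type) [AddCommGroup G] : Prop :=
  ∀ (n : ℕ) (x : G), n ≠ 0 → n • x = 0 → x = 0

/-- `G` is weakly transitive: if some endomorphism maps `x` to `y` and some endomorphism maps `y`
to `x`, then some automorphism maps `x` to `y`. -/
def WeaklyTransitive (G : Type) [AddCommGroup G] : Prop :=
  ∀ x y : G, (∃ φ : G →+ G, φ x = y) → (∃ ψ : G →+ G, ψ y = x) → ∃ η : G ≃+ G, η x = y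

section Loc

/-- The ring of `p`-integral rationals. -/
def Zloc (p : ℕ) [Fact p.Prime] : Subring ℚ where
  carrier := {q | padicNorm p q ≤ 1}
  mul_mem' := by
    intro a b ha hb
    show padicNorm p (a * b) ≤ 1
    rw [padicNorm.mul]
    exact mul_le_one₀ ha (padicNorm.nonneg _) hb
  one_mem' := by
    show padicNorm p 1 ≤ 1
    rw [padicNorm.one]
  add_mem' := by
    intro a b ha hb
    exact padicNorm.nonarchimedean.trans (max_le ha hb)
  zero_mem' := by
    show padicNorm p 0 ≤ 1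
    rw [padicNorm.zero]
    exact zero_le_one
  neg_mem' := by
    intro a ha
    show padicNorm p (-a) ≤ 1
    rw [padicNorm.neg]
    exact ha

lemma mem_Zloc {p : ℕ} [Fact p.Prime] {q : ℚ} : q ∈ Zloc p ↔ padicNorm p q ≤ 1 := Iff.rfl

lemma int_mem {p : ℕ} [Fact p.Prime] (z : ℤ) : (z : ℚ) ∈ Zloc p := padicNorm.of_int z

/-- A rational that is integral at all primes is an integer. -/
lemma den_eq_one {c : ℚ} (h : ∀ p : ℕ, ∀ _ : Fact p.Prime, c ∈ Zloc p) : c.den = 1 := by
  by_contra hne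
  obtain ⟨p, hp, hpd⟩ := Nat.exists_prime_and_dvd hne
  haveI : Fact p.Prime := ⟨hp⟩
  have h1 : padicNorm p c ≤ 1 := h p ⟨hp⟩
  have h2 : padicNorm p (c.den : ℚ) < 1 := (padicNorm.nat_lt_one_iff _).2 hpd
  have h3 : padicNorm p ((c.num : ℤ) : ℚ) = 1 := by
    rw [padicNorm.int_eq_one_iff]
    intro hdvd
    have h4 : p ∣ c.num.natAbs := Int.natCast_dvd.1 hdvd
    have h5 := Nat.dvd_gcd h4 hpd
    rw [c.reduced] at h5
    exact hp.one_lt.ne' (Nat.dvd_one.1 h5)
  have h6 : ((c.num : ℤ) : ℚ) = c.den * c := (Rat.den_mul_eq_num c).symm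
  rw [h6, padicNorm.mul] at h3
  have h7 : padicNorm p (c.den : ℚ) * padicNorm p c ≤ padicNorm p (c.den : ℚ) * 1 :=
    mul_le_mul_of_nonneg_left h1 (padicNorm.nonneg _)
  linarith

end Loc

instance : Fact (Nat.Prime 5) := ⟨by norm_num⟩

/-- The ring `R`. -/
def R : Subring ℚ[X] where
  carrier := {f | (∀ n, f.coeff n ∈ Zloc 5) ∧
    ∀ (p : ℕ) (_ : Fact p.Prime), p ≠ 5 → f.eval (p : ℚ) ∈ Zloc p}
  mul_mem' := by
    rintro f g ⟨hf, hf'⟩ ⟨hg, hg'⟩
    refine ⟨fun n => ?_, fun p hp hp5 => ?_⟩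
    · rw [coeff_mul]
      exact sum_mem fun i _ => mul_mem (hf _) (hg _)
    · rw [eval_mul]
      exact mul_mem (hf' p hp hp5) (hg' p hp hp5)
  one_mem' := by
    refine ⟨fun n => ?_, fun p hp hp5 => ?_⟩
    · rw [coeff_one]
      split_ifs
      · exact one_mem _
      · exact zero_mem _
    · rw [eval_one]
      exact one_mem _
  add_mem' := by
    rintro f g ⟨hf, hf'⟩ ⟨hg, hg'⟩
    refine ⟨fun n => ?_, fun p hp hp5 => ?_⟩
    · rw [coeff_add]
      exact add_mem (hf _) (hg _)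
    · rw [eval_add]
      exact add_mem (hf' p hp hp5) (hg' p hp hp5)
  zero_mem' := by
    refine ⟨fun n => ?_, fun p hp hp5 => ?_⟩
    · rw [coeff_zero]
      exact zero_mem _
    · rw [eval_zero]
      exact zero_mem _
  neg_mem' := by
    rintro f ⟨hf, hf'⟩
    refine ⟨fun n => ?_, fun p hp hp5 => ?_⟩
    · rw [coeff_neg]
      exact neg_mem (hf _)
    · rw [eval_neg]
      exact neg_mem (hf' p hp hp5)

lemma X_mem : (X : ℚ[X]) ∈ R := by
  refine ⟨fun n => ?_, fun p hp hp5 => ?_⟩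
  · rw [coeff_X]
    split_ifs
    · exact one_mem _
    · exact zero_mem _
  · rw [eval_X]
    exact_mod_cast int_mem (p : ℤ)

/-- The element `X` of `R`. -/
noncomputable def XR : R := ⟨X, X_mem⟩

lemma exists_int_multiple (g : ℚ[X]) :
    ∃ N : ℕ, N ≠ 0 ∧ ∃ h : ℤ[X], (N : ℚ[X]) * g = h.map (Int.castRingHom ℚ) := by
  induction g using Polynomial.induction_on' with
  | add f g hf hg =>
    obtain ⟨N, hN, h, hh⟩ := hf
    obtain ⟨M, hM, k, hk⟩ := hg
    refine ⟨N * M, mul_ne_zero hN hM, (M : ℤ[X]) * h + (N : ℤ[X]) * k, ?_⟩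
    rw [Polynomial.map_add, Polynomial.map_mul, Polynomial.map_mul, ← hh, ← hk]
    simp only [Polynomial.map_natCast]
    push_cast
    ring
  | monomial n a =>
    refine ⟨a.den, a.den_ne_zero, monomial n a.num, ?_⟩
    rw [map_monomial, ← C_eq_natCast, C_mul_monomial]
    congr 1
    exact Rat.den_mul_eq_num a

lemma padicNorm_inv_pow {p q : ℕ} [Fact p.Prime] [Fact q.Prime] (h : q ≠ p) (k : ℕ) :
    padicNorm q (((p : ℚ) ^ k)⁻¹) ≤ 1 := by
  have h1 : padicNorm q (p : ℚ) = 1 := padicNorm.padicNorm_of_prime_of_ne h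
  have h2 : padicNorm q ((p : ℚ) ^ k) = 1 := by
    induction k with
    | zero => rw [pow_zero, padicNorm.one]
    | succ k ih => rw [pow_succ, padicNorm.mul, ih, h1, one_mul]
  have h3 : padicNorm q (((p : ℚ) ^ k)⁻¹) = 1 := by
    rw [← one_div, padicNorm.div, padicNorm.one, h2, div_one]
  exact h3.le

/-- The elements `(X - p) h / p^k` lie in `R`. -/
lemma special_mem {p : ℕ} [hp : Fact p.Prime] (hp5 : p ≠ 5) (h : ℤ[X]) (k : ℕ) :
    C (((p : ℚ) ^ k)⁻¹) * ((X - C (p : ℚ)) * h.map (Int.castRingHom ℚ)) ∈ R := by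
  have h0 : (X - C (p : ℚ)) * h.map (Int.castRingHom ℚ) =
      ((X - C (p : ℤ)) * h).map (Int.castRingHom ℚ) := by
    simp [Polynomial.map_mul]
  refine ⟨fun n => ?_, fun q hq hq5 => ?_⟩
  · rw [coeff_C_mul, h0, coeff_map]
    exact mul_mem (padicNorm_inv_pow hp5.symm k) (int_mem _)
  · rw [eval_mul, eval_C]
    by_cases hqp : q = p
    · subst hqp
      simp only [eval_mul, eval_sub, eval_X, eval_C, sub_self, zero_mul, mul_zero]
      exact zero_mem _
    · refine mul_mem (padicNorm_inv_pow hqp k) ?_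
      have h2 : eval (q : ℚ) ((X - C (p : ℚ)) * h.map (Int.castRingHom ℚ)) =
          (((((X - C (p : ℤ)) * h).eval (q : ℤ)) : ℤ) : ℚ) := by
        rw [h0]
        have := Polynomial.eval_intCast_map (Int.castRingHom ℚ) ((X - C (p : ℤ)) * h) (q : ℤ)
        simpa using this
      rw [h2]
      exact int_mem _

/-- A rational all of whose multiples by `p^{-k}` are uniformly bounded vanishes. -/
lemma eq_zero_of_forall {p : ℕ} [hp : Fact p.Prime] {c : ℚ}
    (h : ∀ k : ℕ, ∃ d ∈ Zloc p, c = (p : ℚ) ^ k * d) : c = 0 := by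
  by_contra hc
  obtain ⟨z, hz⟩ := padicNorm.values_discrete (p := p) hc
  obtain ⟨d, hd, hcd⟩ := h (z.toNat + 1)
  have hp1 : (1 : ℚ) < p := by exact_mod_cast hp.1.one_lt
  have hpow : ∀ k : ℕ, padicNorm p ((p : ℚ) ^ k) = ((p : ℚ) ^ k)⁻¹ := by
    intro k
    induction k with
    | zero => rw [pow_zero, padicNorm.one, inv_one]
    | succ k ih =>
      rw [pow_succ, padicNorm.mul, ih, padicNorm.padicNorm_p_of_prime, mul_inv]
  have h1 : padicNorm p c ≤ ((p : ℚ) ^ (z.toNat + 1))⁻¹ := by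
    rw [hcd, padicNorm.mul, hpow]
    exact mul_le_of_le_one_right (by positivity) hd
  rw [hz, zpow_neg, inv_le_inv₀ (by positivity) (by positivity), ← zpow_natCast] at h1
  have h2 := (zpow_le_zpow_iff_right₀ hp1).1 h1
  have h3 := Int.self_le_toNat z
  push_cast at h2
  omega

/-- Every endomorphism of the additive group of `R` is a multiplication. -/
lemma endo_eq (φ : R →+ R) (g : R) : φ g = φ 1 * g := by
  apply Subtype.ext
  show (φ g : ℚ[X]) = (φ 1 : ℚ[X]) * (g : ℚ[X])
  have key : ∀ p : ℕ, ∀ _ : Fact p.Prime, p ≠ 5 →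
      (φ g : ℚ[X]).eval (p : ℚ) = ((φ 1 : ℚ[X]) * (g : ℚ[X])).eval (p : ℚ) := by
    intro p hp hp5
    obtain ⟨N, hN, h, hh⟩ := exists_int_multiple (g : ℚ[X])
    -- the integer `m = N g(p)`
    set m : ℤ := h.eval (p : ℤ) with hm
    have hm' : (N : ℚ) * (g : ℚ[X]).eval (p : ℚ) = m := by
      have h1 := Polynomial.eval_intCast_map (Int.castRingHom ℚ) h (p : ℤ)
      rw [← hh] at h1
      simpa using h1
    obtain ⟨h', hh'⟩ := Polynomial.X_sub_C_dvd_sub_C_eval (a := (p : ℤ)) (p := h)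
    have hdec : (N : ℚ[X]) * (g : ℚ[X]) - (m : ℚ[X]) =
        (X - C (p : ℚ)) * h'.map (Int.castRingHom ℚ) := by
      have h2 := congrArg (Polynomial.map (Int.castRingHom ℚ)) hh'
      rw [hh]
      simpa [Polynomial.map_sub, Polynomial.map_mul] using h2
    have hz : (N : ℚ) * (φ g : ℚ[X]).eval (p : ℚ) - m * (φ 1 : ℚ[X]).eval (p : ℚ) = 0 := by
      apply eq_zero_of_forall (p := p)
      intro k
      let r : R := ⟨_, special_mem (p := p) hp5 h' k⟩
      refine ⟨(φ r : ℚ[X]).eval (p : ℚ), (φ r).2.2 p hp hp5, ?_⟩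
      have hr : (p ^ k) • r = N • g - m • (1 : R) := by
        apply Subtype.ext
        have hpk : ((p : ℚ) ^ k) ≠ 0 := pow_ne_zero _ (by exact_mod_cast hp.1.ne_zero)
        have h3 : ((p ^ k : ℕ) : ℚ[X]) * C (((p : ℚ) ^ k)⁻¹) = 1 := by
          rw [← C_eq_natCast, ← C_mul]
          push_cast
          rw [mul_inv_cancel₀ hpk, C_1]
        show (p ^ k) • (C (((p : ℚ) ^ k)⁻¹) * ((X - C (p : ℚ)) * h'.map (Int.castRingHom ℚ))) =
          N • (g : ℚ[X]) - m • (1 : ℚ[X])
        rw [nsmul_eq_mul, ← mul_assoc, h3, one_mul, nsmul_eq_mul, zsmul_eq_mul, mul_one, hdec]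
      have h4 := congrArg φ hr
      rw [map_sub, map_nsmul, map_nsmul, map_zsmul] at h4
      have h5 := congrArg (fun r : R => (r : ℚ[X]).eval (p : ℚ)) h4
      simpa using h5.symm
    have hN' : (N : ℚ) ≠ 0 := by exact_mod_cast hN
    rw [eval_mul]
    apply mul_left_cancel₀ hN'
    linear_combination hz + (φ 1 : ℚ[X]).eval (p : ℚ) * (- hm')
  apply Polynomial.eq_of_infinite_eval_eq
  have hinf : ((fun p : ℕ => (p : ℚ)) '' {p : ℕ | p.Prime ∧ p ≠ 5}).Infinite := by
    apply Set.Infinite.image (Nat.cast_injective.injOn)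
    have : {p : ℕ | p.Prime ∧ p ≠ 5} = {p : ℕ | p.Prime} \ {5} := by
      ext p
      simp
    rw [this]
    exact Nat.infinite_setOfPred_prime.sdiff (Set.finite_singleton _)
  refine hinf.mono ?_
  rintro _ ⟨p, ⟨hp, hp5⟩, rfl⟩
  exact key p ⟨hp⟩ hp5

lemma weaklyTransitive_R : WeaklyTransitive R := by
  rintro x y ⟨φ, hφ⟩ ⟨ψ, hψ⟩
  rw [endo_eq] at hφ hψ
  by_cases hx : x = 0
  · refine ⟨AddEquiv.refl _, ?_⟩
    rw [← hφ, hx]
    simp
  · have h1 : ψ 1 * φ 1 = 1 := by
      apply mul_right_cancel₀ hx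
      rw [mul_assoc, hφ, hψ, one_mul]
    refine ⟨{ toFun := fun z => φ 1 * z
              invFun := fun z => ψ 1 * z
              left_inv := fun z => by
                show ψ 1 * (φ 1 * z) = z
                rw [← mul_assoc, h1, one_mul]
              right_inv := fun z => by
                show φ 1 * (ψ 1 * z) = z
                rw [← mul_assoc, mul_comm (φ 1), h1, one_mul]
              map_add' := fun z w => mul_add _ _ _ }, hφ⟩

lemma torsionFree_R : TorsionFree R := by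
  intro n x hn hx
  rw [nsmul_eq_mul] at hx
  rcases mul_eq_zero.1 hx with h | h
  · exact absurd (Nat.cast_eq_zero.1 h) hn
  · exact h

/-- The units of `R` are `1` and `-1`. -/
lemma unit_eq {w w' : R} (h : w * w' = 1) : (w : ℚ[X]) = 1 ∨ (w : ℚ[X]) = -1 := by
  have h1 : (w : ℚ[X]) * (w' : ℚ[X]) = 1 := congrArg Subtype.val h
  have h2 : (w' : ℚ[X]) * (w : ℚ[X]) = 1 := by rw [mul_comm, h1]
  obtain ⟨c, hc, hcw⟩ := Polynomial.isUnit_iff.1 (IsUnit.of_mul_eq_one _ h1)
  obtain ⟨c', hc', hcw'⟩ := Polynomial.isUnit_iff.1 (IsUnit.of_mul_eq_one _ h2)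
  have hcc : c * c' = 1 := by
    rw [← hcw, ← hcw', ← C_mul] at h1
    exact C_injective (by rw [h1, C_1])
  have hall : ∀ (v : R) (c : ℚ), C c = (v : ℚ[X]) → ∀ p : ℕ, ∀ _ : Fact p.Prime, c ∈ Zloc p := by
    intro v c hv p hp
    by_cases hp5 : p = 5
    · subst hp5
      have := v.2.1 0
      rwa [← hv, coeff_C_zero] at this
    · have := v.2.2 p hp hp5
      rwa [← hv, eval_C] at this
  have hd := den_eq_one (hall w c hcw)
  have hd' := den_eq_one (hall w' c' hcw')
  have e1 : (c.num : ℚ) = c := by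
    have := Rat.den_mul_eq_num c
    rw [hd] at this
    simpa using this.symm
  have e2 : (c'.num : ℚ) = c' := by
    have := Rat.den_mul_eq_num c'
    rw [hd'] at this
    simpa using this.symm
  have h3 : c.num * c'.num = 1 := by
    have : (c.num : ℚ) * c'.num = 1 := by rw [e1, e2, hcc]
    exact_mod_cast this
  rw [← hcw]
  rcases Int.isUnit_iff.1 (IsUnit.of_mul_eq_one _ h3) with h4 | h4
  · left
    rw [← e1, h4]
    simp
  · right
    rw [← e1, h4]
    simp

/-- Every endomorphism of the square is given by a matrix. -/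
lemma endo_prod (φ : R × R →+ R × R) (r t : R) :
    φ (r, t) = ((φ (1, 0)).1 * r + (φ (0, 1)).1 * t, (φ (1, 0)).2 * r + (φ (0, 1)).2 * t) := by
  have h1 := endo_eq ((AddMonoidHom.fst R R).comp (φ.comp (AddMonoidHom.inl R R))) r
  have h2 := endo_eq ((AddMonoidHom.fst R R).comp (φ.comp (AddMonoidHom.inr R R))) t
  have h3 := endo_eq ((AddMonoidHom.snd R R).comp (φ.comp (AddMonoidHom.inl R R))) r
  have h4 := endo_eq ((AddMonoidHom.snd R R).comp (φ.comp (AddMonoidHom.inr R R))) t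
  simp only [AddMonoidHom.coe_comp, Function.comp_apply, AddMonoidHom.coe_fst,
    AddMonoidHom.coe_snd, AddMonoidHom.inl_apply, AddMonoidHom.inr_apply] at h1 h2 h3 h4
  have h5 : ((r, t) : R × R) = (r, 0) + (0, t) := by simp
  rw [h5, map_add]
  ext1
  · rw [Prod.fst_add, h1, h2]
  · rw [Prod.snd_add, h3, h4]

lemma not_weaklyTransitive_square : ¬ WeaklyTransitive (R × R) := by
  intro h
  obtain ⟨η, hη⟩ := h (XR, 5) (2 * XR, 5)
    ⟨{ toFun := fun z => (2 * z.1, z.2)
       map_zero' := by simp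
       map_add' := fun z w => by ext1 <;> simp [mul_add] }, rfl⟩
    ⟨{ toFun := fun z => (3 * z.1 - XR * z.2, z.2)
       map_zero' := by simp
       map_add' := fun z w => by
        ext1
        · simp only [Prod.fst_add, Prod.snd_add]
          ring
        · simp }, by
      ext1
      · show 3 * (2 * XR) - XR * 5 = XR
        ring
      · rfl⟩
  obtain ⟨a, c, hac⟩ : ∃ a c, η (1, 0) = (a, c) := ⟨_, _, rfl⟩
  obtain ⟨b, d, hbd⟩ : ∃ b d, η (0, 1) = (b, d) := ⟨_, _, rfl⟩
  obtain ⟨a', c', hac'⟩ : ∃ a c, η.symm (1, 0) = (a, c) := ⟨_, _, rfl⟩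
  obtain ⟨b', d', hbd'⟩ : ∃ b d, η.symm (0, 1) = (b, d) := ⟨_, _, rfl⟩
  have e1 : ∀ r t, η (r, t) = (a * r + b * t, c * r + d * t) := by
    intro r t
    have := endo_prod (η : R × R →+ R × R) r t
    simpa [hac, hbd] using this
  have e2 : ∀ r t, η.symm (r, t) = (a' * r + b' * t, c' * r + d' * t) := by
    intro r t
    have := endo_prod (η.symm : R × R →+ R × R) r t
    simpa [hac', hbd'] using this
  have f1 : η.symm (η (1, 0)) = (1, 0) := η.symm_apply_apply _
  have f2 : η.symm (η (0, 1)) = (0, 1) := η.symm_apply_apply _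
  rw [hac, e2] at f1
  rw [hbd, e2] at f2
  have g1 := congrArg Prod.fst f1
  have g2 := congrArg Prod.snd f1
  have g3 := congrArg Prod.fst f2
  have g4 := congrArg Prod.snd f2
  simp only at g1 g2 g3 g4
  have hdet : (a * d - b * c) * (a' * d' - b' * c') = 1 := by
    linear_combination (c' * b + d' * d) * g1 + g4 - (a' * b + b' * d) * g2
  rw [e1] at hη
  have k1 : a * XR + b * 5 = 2 * XR := congrArg Prod.fst hη
  have k2 : c * XR + d * 5 = 5 := congrArg Prod.snd hη
  -- pass to polynomials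
  have l1 : (a : ℚ[X]) * X + (b : ℚ[X]) * 5 = 2 * X := congrArg Subtype.val k1
  have l2 : (c : ℚ[X]) * X + (d : ℚ[X]) * 5 = 5 := congrArg Subtype.val k2
  have h5 : (5 : ℚ[X]) = C 5 := (map_ofNat C 5).symm
  have h2 : (2 : ℚ[X]) = C 2 := (map_ofNat C 2).symm
  rw [h5, h2] at l1
  rw [h5] at l2
  have m1 := congrArg (fun f : ℚ[X] => f.coeff 0) l1
  have m2 := congrArg (fun f : ℚ[X] => f.coeff 1) l1
  have m3 := congrArg (fun f : ℚ[X] => f.coeff 0) l2
  simp [coeff_C] at m1 m2 m3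
  have hw := unit_eq hdet
  have hw0 : ((a : ℚ[X]) * d - b * c).coeff 0 = 1 ∨ ((a : ℚ[X]) * d - b * c).coeff 0 = -1 := by
    rcases hw with hw | hw
    · left
      have : ((a : ℚ[X]) * d - b * c) = 1 := hw
      rw [this]; simp
    · right
      have : ((a : ℚ[X]) * d - b * c) = -1 := hw
      rw [this]; simp
  rw [coeff_sub, mul_coeff_zero, mul_coeff_zero, m1, m3] at hw0
  rw [mul_one, zero_mul, sub_zero] at hw0
  have hb : padicNorm 5 ((b : ℚ[X]).coeff 1) ≤ 1 := b.2.1 1
  have hb5 : padicNorm 5 ((b : ℚ[X]).coeff 1 * ((5 : ℕ) : ℚ)) < 1 := by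
    rw [padicNorm.mul]
    have h6 : padicNorm 5 ((5 : ℕ) : ℚ) < 1 := padicNorm.padicNorm_p_lt_one_of_prime
    exact mul_lt_one_of_nonneg_of_lt_one_right hb (padicNorm.nonneg _) h6
  have hone : ∀ z : ℤ, ¬ (5 : ℤ) ∣ z → (b : ℚ[X]).coeff 1 * ((5 : ℕ) : ℚ) ≠ (z : ℚ) := by
    intro z hz h6
    rw [h6] at hb5
    exact hz ((padicNorm.int_lt_one_iff z).1 hb5)
  rcases hw0 with h7 | h7
  · apply hone 1 (by norm_num)
    push_cast
    linear_combination m2 - h7
  · apply hone 3 (by norm_num)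
    push_cast
    linear_combination m2 - h7

/-- There is a torsion-free abelian group which is weakly transitive while its square is not
weakly transitive. -/
theorem result :
    ∃ (G : Type) (_ : AddCommGroup G),
      TorsionFree G ∧ WeaklyTransitive G ∧ ¬ WeaklyTransitive (G × G) :=
  ⟨R, inferInstance, torsionFree_R, weaklyTransitive_R, not_weaklyTransitive_square⟩

end Pool.Agent.Results.MP_1abb56_al.SquareNotWeak
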